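import Pool.Agent.Helper85.LP.Defs
import Pool.Agent.Helper65.LP.Sub
import Pool.Agent.Helper47.LB.Star

/-!
Block B2: the transfer of the assumptions on the kernel to a measure with a bounded density on a
measurable subset.
-/

set_option autoImplicit false

open MeasureTheory Finset

namespace Pool.Agent.Helper50.LP

open Pool.Agent.Helper47.KP (Bd pim)
open Pool.Agent.Helper47.LB
open Pool.Agent.Helper85.LP

section Transfer

variable {Y Z Y' Z' : Type} [MeasurableSpace Y] [MeasurableSpace Z] [MeasurableSpace Y']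
  [MeasurableSpace Z']

/-- Transfer of a norm bound. `μ'` on `Y'` has the density `α ≤ A` with respect to `μ`, as seen
through the map `i : Y' → Y` with left inverse `r`; in the same way for `ν'`. -/
theorem NB_transfer {μ : Measure Y} {ν : Measure Z} {μ' : Measure Y'} {ν' : Measure Z'}
    [IsProbabilityMeasure μ] [IsProbabilityMeasure ν] [IsProbabilityMeasure μ']
    [IsProbabilityMeasure ν'] {i : Y' → Y} {r : Y → Y'} (hi : Measurable i) (hr : Measurable r)
    (hri : ∀ y, r (i y) = y) {j : Z' → Z} {s : Z → Z'} (hj : Measurable j) (hs : Measurable s)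
    (hsj : ∀ z, s (j z) = z) {α : Y → ℝ} {β : Z → ℝ} (hα : Bd α) (hβ : Bd β)
    (hα0 : ∀ y, 0 ≤ α y) (hβ0 : ∀ z, 0 ≤ β z) {A B : ℝ} (hA : ∀ y, α y ≤ A) (hB : ∀ z, β z ≤ B)
    (hμ : ∀ Φ : Y → ℝ, Bd Φ → ∫ y, Φ (i y) ∂μ' = ∫ y, α y * Φ y ∂μ)
    (hν : ∀ Φ : Z → ℝ, Bd Φ → ∫ z, Φ (j z) ∂ν' = ∫ z, β z * Φ z ∂ν)
    {H : Y → Z → ℝ} (hH : Bd fun p : Y × Z => H p.1 p.2) {c : ℝ} (hc : 0 ≤ c)
    (h : NB μ ν H c) : NB μ' ν' (fun y z => H (i y) (j z)) (c * (√A * √B)) := by
  intro u w hu hw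
  set U : Y → ℝ := fun y => u (r y) with hU
  set W : Z → ℝ := fun z => w (s z) with hW
  have bU : Bd U := hu.comp hr
  have bW : Bd W := hw.comp hs
  have bUα : Bd fun y => α y * U y := hα.mul bU
  have bWβ : Bd fun z => β z * W z := hβ.mul bW
  have bsq : ∀ {T : Type} [MeasurableSpace T] {f : T → ℝ}, Bd f → Bd fun y => f y ^ 2 := by
    intro T _ f hf
    simpa only [sq] using hf.mul hf
  -- the double integral
  have e1 : ∀ y' : Y', ∫ z', u y' * w z' * H (i y') (j z') ∂ν' =
      ∫ z, β z * (U (i y') * W z * H (i y') z) ∂ν := by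
    intro y'
    rw [← hν (fun z => U (i y') * W z * H (i y') z)
      (((Bd.const _).mul bW).mul (hH.comp (g := fun z : Z => (i y', z)) (by fun_prop)))]
    refine integral_congr_ae (Filter.Eventually.of_forall fun z' => ?_)
    simp only [hU, hW, hri, hsj]
  have bI : Bd fun y : Y => ∫ z, β z * (U y * W z * H y z) ∂ν := by
    have b0 : Bd fun p : Y × Z => β p.2 * (U p.1 * W p.2 * H p.1 p.2) :=
      (hβ.comp measurable_snd).mul
        (((bU.comp measurable_fst).mul (bW.comp measurable_snd)).mul hH)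
    exact b0.integral ν
  have e2 : ∫ y', ∫ z', u y' * w z' * H (i y') (j z') ∂ν' ∂μ' =
      ∫ y, ∫ z, (α y * U y) * (β z * W z) * H y z ∂ν ∂μ := by
    simp only [e1]
    rw [hμ _ bI]
    refine integral_congr_ae (Filter.Eventually.of_forall fun y => ?_)
    simp only
    rw [← integral_const_mul]
    refine integral_congr_ae (Filter.Eventually.of_forall fun z => ?_)
    simp only
    ring
  show |∫ y', ∫ z', u y' * w z' * H (i y') (j z') ∂ν' ∂μ'| ≤ _
  rw [e2]
  refine (h _ _ bUα bWβ).trans ?_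
  have n1 : √(∫ y, (α y * U y) ^ 2 ∂μ) ≤ √A * √(∫ y', u y' ^ 2 ∂μ') := by
    have e3 : ∫ y', u y' ^ 2 ∂μ' = ∫ y, α y * U y ^ 2 ∂μ := by
      rw [← hμ _ (bsq bU)]
      refine integral_congr_ae (Filter.Eventually.of_forall fun y' => ?_)
      simp only [hU, hri]
    have hA0 : 0 ≤ A := by
      obtain ⟨y⟩ : Nonempty Y := μ.nonempty_of_neZero
      exact (hα0 y).trans (hA y)
    rw [e3, ← Real.sqrt_mul hA0, ← integral_const_mul]
    refine Real.sqrt_le_sqrt (integral_mono ((bsq bUα).integrable _)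
      (((hα.mul (bsq bU)).integrable _).const_mul A) fun y => ?_)
    have h1 : 0 ≤ α y * U y ^ 2 := mul_nonneg (hα0 y) (sq_nonneg _)
    calc (α y * U y) ^ 2 = α y * (α y * U y ^ 2) := by ring
      _ ≤ A * (α y * U y ^ 2) := mul_le_mul_of_nonneg_right (hA y) h1
  have n2 : √(∫ z, (β z * W z) ^ 2 ∂ν) ≤ √B * √(∫ z', w z' ^ 2 ∂ν') := by
    have e3 : ∫ z', w z' ^ 2 ∂ν' = ∫ z, β z * W z ^ 2 ∂ν := by
      rw [← hν _ (bsq bW)]
      refine integral_congr_ae (Filter.Eventually.of_forall fun z' => ?_)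
      simp only [hW, hsj]
    have hB0 : 0 ≤ B := by
      obtain ⟨z⟩ : Nonempty Z := ν.nonempty_of_neZero
      exact (hβ0 z).trans (hB z)
    rw [e3, ← Real.sqrt_mul hB0, ← integral_const_mul]
    refine Real.sqrt_le_sqrt (integral_mono ((bsq bWβ).integrable _)
      (((hβ.mul (bsq bW)).integrable _).const_mul B) fun z => ?_)
    have h1 : 0 ≤ β z * W z ^ 2 := mul_nonneg (hβ0 z) (sq_nonneg _)
    calc (β z * W z) ^ 2 = β z * (β z * W z ^ 2) := by ring
      _ ≤ B * (β z * W z ^ 2) := mul_le_mul_of_nonneg_right (hB z) h1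
  calc c * (√(∫ y, (α y * U y) ^ 2 ∂μ) * √(∫ z, (β z * W z) ^ 2 ∂ν)) ≤
      c * ((√A * √(∫ y', u y' ^ 2 ∂μ')) * (√B * √(∫ z', w z' ^ 2 ∂ν'))) := by
        refine mul_le_mul_of_nonneg_left ?_ hc
        exact mul_le_mul n1 n2 (Real.sqrt_nonneg _)
          (mul_nonneg (Real.sqrt_nonneg _) (Real.sqrt_nonneg _))
    _ = _ := by ring

end Transfer

variable {X : Type} [MeasurableSpace X] {σ : Measure X} [IsProbabilityMeasure σ]
  {g : X → X → ℝ} {G v ε : ℝ} {D : ℕ → ℝ}

theorem KerD_sub (K : KerD σ g G v ε D) {E : Set X} (hE : MeasurableSet E) {ρ : X → ℝ}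
    (hρ : Measurable ρ) (h0 : ∀ x, 0 ≤ ρ x) {C : ℝ} (hC : ∀ x, ρ x ≤ C) (hC1 : 1 ≤ C)
    {σ' : Measure E} [IsProbabilityMeasure σ']
    (hmap : σ'.map Subtype.val = σ.withDensity fun x => ENNReal.ofReal (ρ x))
    (hCv : C * v ≤ 1) : KerD σ' (fun x y : E => g x y) G (C * v) (C * ε) D := by
  have k := K.ker
  have hC0 : 0 < C := by linarith
  have bρ : Bd ρ := Helper65.LP.Bd_rho hρ h0 hC
  obtain ⟨e0⟩ : Nonempty E := σ'.nonempty_of_neZero
  obtain ⟨r, hr, hrv⟩ := (MeasurableEmbedding.subtype_coe hE).exists_measurable_extend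
    (g := (id : E → E)) measurable_id (fun _ => ⟨e0⟩)
  have hri : ∀ x : E, r x = x := fun x => congrFun hrv x
  have bg : Bd fun p : X × X => g p.1 p.2 - 1 := star_Bd k
  -- single integrals
  have hsing : ∀ Φ : X → ℝ, Bd Φ → ∫ y : E, Φ y ∂σ' = ∫ x, ρ x * Φ x ∂σ := by
    intro Φ hΦ
    rw [← integral_map (μ := σ') measurable_subtype_coe.aemeasurable
      hΦ.meas.aestronglyMeasurable, hmap,
      integral_withDensity_eq_integral_toReal_smul hρ.ennreal_ofReal
        (Filter.Eventually.of_forall fun _ => ENNReal.ofReal_lt_top)]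
    refine integral_congr_ae (Filter.Eventually.of_forall fun x => ?_)
    show (ENNReal.ofReal (ρ x)).toReal • Φ x = _
    rw [ENNReal.toReal_ofReal (h0 _), smul_eq_mul]
  have hvar : ∀ x : E, ∫ y : E, (g x y - 1) ^ 2 ∂σ' ≤ C * v := by
    intro x
    have b1 : Bd fun y : X => (g x y - 1) ^ 2 := by
      have := (bg.comp (g := fun y : X => ((x : X), y)) (by fun_prop))
      simpa only [sq] using this.mul this
    rw [hsing (fun y => (g x y - 1) ^ 2) b1]
    calc ∫ y, ρ y * (g x y - 1) ^ 2 ∂σ ≤ ∫ y, C * (g x y - 1) ^ 2 ∂σ := by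
          refine integral_mono ((bρ.mul b1).integrable _) ((b1.integrable _).const_mul C)
            fun y => ?_
          exact mul_le_mul_of_nonneg_right (hC y) (sq_nonneg _)
      _ = C * ∫ y, (g x y - 1) ^ 2 ∂σ := integral_const_mul _ _
      _ ≤ C * v := mul_le_mul_of_nonneg_left (k.var x) hC0.le
  have hop : NB σ' σ' (fun x y : E => g x y - 1) (C * ε) := by
    have h := NB_transfer (i := (Subtype.val : E → X)) (r := r) (j := (Subtype.val : E → X))
      (s := r) measurable_subtype_coe hr hri measurable_subtype_coe hr hri bρ bρ h0 h0 hC hC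
      hsing hsing bg k.ε0 k.op
    rw [Real.mul_self_sqrt hC0.le, mul_comm] at h
    exact h
  have hstar : ∀ s : ℕ, 1 ≤ s → NB (pis σ' (Fin s)) σ' (fun a y => ∏ i, (g (a i) y - 1))
      (√(C * v) ^ (s + 1) * D s) := by
    intro s hs
    have bP : Bd fun p : (Fin s → X) × X => ∏ i, (g (p.1 i) p.2 - 1) :=
      star_Bd_prod k (Fin s)
    have hCs : ∀ y : Fin s → X, ∏ a, ρ (y a) ≤ C ^ s := by
      intro y
      refine (Finset.prod_le_prod (fun a _ => h0 _) fun a _ => hC _).trans ?_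
      rw [prod_const, card_univ, Fintype.card_fin]
    have h := NB_transfer (μ := pis σ (Fin s)) (μ' := pis σ' (Fin s))
      (i := fun (y : Fin s → E) a => (y a : X)) (r := fun (x : Fin s → X) a => r (x a))
      (j := (Subtype.val : E → X)) (s := r)
      (measurable_pi_lambda _ fun a => measurable_subtype_coe.comp (measurable_pi_apply a))
      (measurable_pi_lambda _ fun a => hr.comp (measurable_pi_apply a))
      (fun y => funext fun a => hri (y a)) measurable_subtype_coe hr hri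
      (Helper65.LP.Bd_prod bρ (Fin s)) bρ (fun y => prod_nonneg fun a _ => h0 _) h0 hCs hC
      (fun Φ hΦ => Helper65.LP.int_sub bρ h0 hmap (Fin s) hΦ) hsing bP
      (mul_nonneg (pow_nonneg (Real.sqrt_nonneg _) _) (K.D_nonneg s)) (K.star s hs)
    refine h.mono (le_of_eq ?_)
    have e1 : √(C ^ s) = √C ^ s := by
      rw [Real.sqrt_eq_iff_mul_self_eq (by positivity) (by positivity), ← mul_pow,
        Real.mul_self_sqrt hC0.le]
    rw [e1, Real.sqrt_mul hC0.le, mul_pow, pow_succ √C]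
    ring
  refine ⟨⟨?_, ?_, ?_, ?_, k.one_le, ?_, hvar, mul_pos hC0 k.v0, hCv,
    mul_nonneg hC0.le k.ε0, hop⟩, hstar, K.D0, K.D_nonneg, K.D_le, K.D_mul⟩
  · exact k.meas.comp ((measurable_subtype_coe.comp measurable_fst).prodMk
      (measurable_subtype_coe.comp measurable_snd))
  · exact fun x y => k.symm x y
  · exact fun x y => k.nonneg x y
  · exact fun x y => k.le x y
  · exact fun x y => k.abs_sub x y

end Pool.Agent.Helper50.LP
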