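import Mathlib

/-!
Block B2 of the Lasserre barrier for linear levels: the recursively defined constants `MMd`.

`MMd G D q p ≤ (q + 1)^p * (p + 1)^q * G^(p q) * D p` if `D 0 = 1`, `0 ≤ D ≤ 1` and
`D a * D b ≤ D (a + b)`.
-/

set_option autoImplicit false

open Finset

namespace Pool.Agent.Helper50.LP

/-- the conditions on the constants of the stars -/
structure Dcond (D : ℕ → ℝ) : Prop where
  zero : D 0 = 1
  nonneg : ∀ s, 0 ≤ D s
  le_one : ∀ s, D s ≤ 1
  mul_le : ∀ a b, D a * D b ≤ D (a + b)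

/-- The recursively defined constants of the norm bound of `HH`; `D s` is the constant of the
star with `s` leaves. -/
noncomputable def MMd (G : ℝ) (D : ℕ → ℝ) : ℕ → ℕ → ℝ
  | 0, p => if p = 0 then 1 else 0
  | q + 1, p => ∑ k ∈ range p, (p.choose (k + 1) : ℝ) *
      (G ^ p * D (k + 1) * MMd G D q (p - 1 - k)) + p * G ^ p * MMd G D q p

theorem MMd_nonneg {G : ℝ} (hG : 1 ≤ G) {D : ℕ → ℝ} (hD : ∀ s, 0 ≤ D s) (q p : ℕ) :
    0 ≤ MMd G D q p := by
  have hG0 : (0 : ℝ) ≤ G := zero_le_one.trans hG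
  induction q generalizing p with
  | zero =>
    unfold MMd
    split_ifs <;> norm_num
  | succ q ih =>
    unfold MMd
    refine add_nonneg (Finset.sum_nonneg fun k _ => ?_) ?_
    · exact mul_nonneg (Nat.cast_nonneg _)
        (mul_nonneg (mul_nonneg (pow_nonneg hG0 _) (hD _)) (ih _))
    · exact mul_nonneg (mul_nonneg (Nat.cast_nonneg _) (pow_nonneg hG0 _)) (ih _)

theorem sum_choose_pow (p : ℕ) (x : ℝ) :
    ∑ k ∈ range p, (p.choose (k + 1) : ℝ) * x ^ (p - 1 - k) = (x + 1) ^ p - x ^ p := by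
  have h := add_pow (1 : ℝ) x p
  rw [Finset.sum_range_succ'] at h
  simp only [one_pow, one_mul, pow_zero, Nat.choose_zero_right, Nat.cast_one, mul_one,
    Nat.sub_zero] at h
  rw [add_comm x 1, h, add_sub_cancel_right]
  refine sum_congr rfl fun k _ => ?_
  rw [mul_comm]
  congr 2
  omega

theorem MMd_le {G : ℝ} (hG : 1 ≤ G) {D : ℕ → ℝ} (hD : Dcond D) (q p : ℕ) :
    MMd G D q p ≤ ((q : ℝ) + 1) ^ p * ((p : ℝ) + 1) ^ q * G ^ (p * q) * D p := by
  have hG0 : (0 : ℝ) ≤ G := zero_le_one.trans hG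
  have hM := fun q p => MMd_nonneg hG hD.nonneg q p
  induction q generalizing p with
  | zero =>
    unfold MMd
    split_ifs with h
    · subst h
      simp [hD.zero]
    · have := hD.nonneg p
      simpa using this
  | succ q ih =>
    rw [MMd]
    have hone : ∀ k ∈ range p, (p.choose (k + 1) : ℝ) *
        (G ^ p * D (k + 1) * MMd G D q (p - 1 - k)) ≤
        ((p : ℝ) + 1) ^ q * G ^ (p * (q + 1)) * D p *
          ((p.choose (k + 1) : ℝ) * ((q : ℝ) + 1) ^ (p - 1 - k)) := by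
      intro k hk
      have hk' := Finset.mem_range.mp hk
      have hcast : ((p - 1 - k : ℕ) : ℝ) ≤ p := by exact_mod_cast (by omega : p - 1 - k ≤ p)
      have h1 : MMd G D q (p - 1 - k) ≤
          ((q : ℝ) + 1) ^ (p - 1 - k) * ((p : ℝ) + 1) ^ q * G ^ (p * q) * D (p - 1 - k) := by
        refine (ih (p - 1 - k)).trans ?_
        refine mul_le_mul_of_nonneg_right ?_ (hD.nonneg _)
        refine mul_le_mul ?_ ?_ (pow_nonneg hG0 _) (by positivity)
        · refine mul_le_mul_of_nonneg_left ?_ (by positivity)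
          exact pow_le_pow_left₀ (by positivity) (by linarith) q
        · exact pow_le_pow_right₀ hG (Nat.mul_le_mul_right q (by omega))
      have h2 : D (k + 1) * D (p - 1 - k) ≤ D p := by
        have := hD.mul_le (k + 1) (p - 1 - k)
        rwa [show k + 1 + (p - 1 - k) = p by omega] at this
      have h3 : G ^ (p * (q + 1)) = G ^ p * G ^ (p * q) := by
        rw [← pow_add]; congr 1; ring
      calc (p.choose (k + 1) : ℝ) * (G ^ p * D (k + 1) * MMd G D q (p - 1 - k))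
          ≤ (p.choose (k + 1) : ℝ) * (G ^ p * D (k + 1) *
            (((q : ℝ) + 1) ^ (p - 1 - k) * ((p : ℝ) + 1) ^ q * G ^ (p * q) * D (p - 1 - k))) := by
            refine mul_le_mul_of_nonneg_left (mul_le_mul_of_nonneg_left h1 ?_) (Nat.cast_nonneg _)
            exact mul_nonneg (pow_nonneg hG0 _) (hD.nonneg _)
        _ = (((p : ℝ) + 1) ^ q * G ^ (p * (q + 1)) *
              ((p.choose (k + 1) : ℝ) * ((q : ℝ) + 1) ^ (p - 1 - k))) *
              (D (k + 1) * D (p - 1 - k)) := by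
            rw [h3]; ring
        _ ≤ (((p : ℝ) + 1) ^ q * G ^ (p * (q + 1)) *
              ((p.choose (k + 1) : ℝ) * ((q : ℝ) + 1) ^ (p - 1 - k))) * D p := by
            refine mul_le_mul_of_nonneg_left h2 ?_
            exact mul_nonneg (mul_nonneg (by positivity) (pow_nonneg hG0 _)) (by positivity)
        _ = _ := by ring
    have hsum := Finset.sum_le_sum hone
    rw [← Finset.mul_sum, sum_choose_pow] at hsum
    have hsec : (p : ℝ) * G ^ p * MMd G D q p ≤
        ((p : ℝ) + 1) ^ q * G ^ (p * (q + 1)) * D p * ((p : ℝ) * ((q : ℝ) + 1) ^ p) := by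
      have h3 : G ^ (p * (q + 1)) = G ^ p * G ^ (p * q) := by
        rw [← pow_add]; congr 1; ring
      calc (p : ℝ) * G ^ p * MMd G D q p ≤ (p : ℝ) * G ^ p *
            (((q : ℝ) + 1) ^ p * ((p : ℝ) + 1) ^ q * G ^ (p * q) * D p) :=
            mul_le_mul_of_nonneg_left (ih p) (mul_nonneg (Nat.cast_nonneg _) (pow_nonneg hG0 _))
        _ = _ := by rw [h3]; ring
    have hfin : ((q : ℝ) + 1 + 1) ^ p - ((q : ℝ) + 1) ^ p + (p : ℝ) * ((q : ℝ) + 1) ^ p ≤
        ((q : ℝ) + 1 + 1) ^ p * ((p : ℝ) + 1) := by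
      have h4 : ((q : ℝ) + 1) ^ p ≤ ((q : ℝ) + 1 + 1) ^ p :=
        pow_le_pow_left₀ (by positivity) (by linarith) p
      have h5 : (p : ℝ) * ((q : ℝ) + 1) ^ p ≤ (p : ℝ) * ((q : ℝ) + 1 + 1) ^ p :=
        mul_le_mul_of_nonneg_left h4 (Nat.cast_nonneg _)
      have h6 : (0 : ℝ) ≤ ((q : ℝ) + 1) ^ p := by positivity
      nlinarith
    have hc : 0 ≤ ((p : ℝ) + 1) ^ q * G ^ (p * (q + 1)) * D p :=
      mul_nonneg (mul_nonneg (by positivity) (pow_nonneg hG0 _)) (hD.nonneg _)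
    calc _ ≤ ((p : ℝ) + 1) ^ q * G ^ (p * (q + 1)) * D p *
          (((q : ℝ) + 1 + 1) ^ p - ((q : ℝ) + 1) ^ p) +
          ((p : ℝ) + 1) ^ q * G ^ (p * (q + 1)) * D p * ((p : ℝ) * ((q : ℝ) + 1) ^ p) :=
          add_le_add hsum hsec
      _ = ((p : ℝ) + 1) ^ q * G ^ (p * (q + 1)) * D p *
          (((q : ℝ) + 1 + 1) ^ p - ((q : ℝ) + 1) ^ p + (p : ℝ) * ((q : ℝ) + 1) ^ p) := by ring
      _ ≤ ((p : ℝ) + 1) ^ q * G ^ (p * (q + 1)) * D p *
          (((q : ℝ) + 1 + 1) ^ p * ((p : ℝ) + 1)) := mul_le_mul_of_nonneg_left hfin hc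
      _ = _ := by push_cast; ring

/-- the symmetric bound: `q ≤ p ≤ m` -/
theorem MMd_le_diag {G : ℝ} (hG : 1 ≤ G) {D : ℕ → ℝ} (hD : Dcond D) {q p : ℕ} (h : q ≤ p) :
    MMd G D q p ≤ ((p : ℝ) + 1) ^ (2 * p) * G ^ (p ^ 2) * D p := by
  have hG0 : (0 : ℝ) ≤ G := zero_le_one.trans hG
  refine (MMd_le hG hD q p).trans ?_
  refine mul_le_mul_of_nonneg_right ?_ (hD.nonneg _)
  have hqp : (q : ℝ) ≤ p := by exact_mod_cast h
  refine mul_le_mul ?_ ?_ (pow_nonneg hG0 _) (by positivity)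
  · calc ((q : ℝ) + 1) ^ p * ((p : ℝ) + 1) ^ q ≤ ((p : ℝ) + 1) ^ p * ((p : ℝ) + 1) ^ p := by
          refine mul_le_mul (pow_le_pow_left₀ (by positivity) (by linarith) p)
            (pow_le_pow_right₀ (by linarith [Nat.cast_nonneg (α := ℝ) p]) h)
            (by positivity) (by positivity)
      _ = _ := by rw [← pow_add]; congr 1; ring
  · refine pow_le_pow_right₀ hG ?_
    rw [sq]
    exact Nat.mul_le_mul_left p h

end Pool.Agent.Helper50.LP
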