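import Pool.Agent.Helper47.LB.HHb
import Pool.Agent.Helper50.LP.Rec
import Pool.Agent.Helper85.LP.Defs

/-!
Block B2: the norm of `HH` from the norms of the stars.
-/

set_option autoImplicit false

open MeasureTheory Finset

namespace Pool.Agent.Helper50.LP

open Pool.Agent.Helper47.KP (Bd pim)
open Pool.Agent.Helper47.LB
open Pool.Agent.Helper85.LP

variable {X : Type} [MeasurableSpace X] {σ : Measure X} [IsProbabilityMeasure σ]
  {g : X → X → ℝ} {G v ε : ℝ}

omit [IsProbabilityMeasure σ] in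
theorem KerD_cond {D : ℕ → ℝ} (KD : KerD σ g G v ε D) : Dcond D :=
  ⟨KD.D0, KD.D_nonneg, KD.D_le, KD.D_mul⟩

omit [IsProbabilityMeasure σ] in
lemma Ker_abs_le (K : Ker σ g G v ε) (x y : X) : |g x y| ≤ G := by
  rw [abs_of_nonneg (K.nonneg x y)]
  exact K.le x y

omit [IsProbabilityMeasure σ] in
lemma Ker_bdg (K : Ker σ g G v ε) : Bd fun p : X × X => g p.1 p.2 :=
  ⟨K.meas, G, fun p => Ker_abs_le K p.1 p.2⟩

omit [IsProbabilityMeasure σ] in
lemma Ker_abs_prod_le (K : Ker σ g G v ε) {ι : Type} (s : Finset ι) (a : ι → X) (y : X) :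
    |∏ i ∈ s, g (a i) y| ≤ G ^ s.card := by
  rw [Finset.abs_prod]
  calc ∏ i ∈ s, |g (a i) y| ≤ ∏ _i ∈ s, G :=
        Finset.prod_le_prod (fun i _ => abs_nonneg _) fun i _ => Ker_abs_le K _ _
    _ = G ^ s.card := by rw [Finset.prod_const]


theorem star_NBd {D : ℕ → ℝ} (KD : KerD σ g G v ε D) (s : ℕ) (hs : 1 ≤ s) (ι : Type) [Fintype ι]
    (hι : Fintype.card ι = s) :
    NB (pis σ ι) σ (fun a y => ∏ i, (g (a i) y - 1)) (√v ^ (s + 1) * D s) := by
  have e : ι ≃ Fin s := Fintype.equivFinOfCardEq hι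
  have h := NB.equiv (MeasurableEquiv.piCongrLeft (fun _ : Fin s => X) e)
    (measurePreserving_piCongrLeft (fun _ : Fin s => σ) e) (MeasurableEquiv.refl X)
    (MeasurePreserving.id σ) (KD.star s hs)
  refine h.congr fun a y => ?_
  rw [← Equiv.prod_comp e]
  refine Finset.prod_congr rfl fun i _ => ?_
  have h1 : (MeasurableEquiv.piCongrLeft (fun _ : Fin s => X) e) a (e i) = a i :=
    Equiv.piCongrLeft_apply_apply (fun _ : Fin s => X) e a i
  rw [h1]
  rfl

lemma sum_erase_card (n : ℕ) {ι : Type} [Fintype ι] [DecidableEq ι]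
    (hn : Fintype.card ι = n) (f : ℕ → ℝ) :
    ∑ A ∈ univ.erase (univ : Finset ι), f A.card =
      ∑ k ∈ range n, (n.choose (k + 1) : ℝ) * f (n - 1 - k) := by
  have h1 : ∑ A : Finset ι, f A.card = ∑ m ∈ range (n + 1), (n.choose m : ℝ) * f m := by
    have h := Finset.sum_powerset_apply_card f (x := (univ : Finset ι))
    rw [Finset.powerset_univ, Finset.card_univ, hn] at h
    rw [h]
    exact Finset.sum_congr rfl fun m _ => by rw [nsmul_eq_mul]
  have h2 := Finset.add_sum_erase (univ : Finset (Finset ι)) (fun A => f A.card)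
    (Finset.mem_univ (univ : Finset ι))
  rw [Finset.card_univ, hn, h1, Finset.sum_range_succ, Nat.choose_self, Nat.cast_one,
    one_mul] at h2
  have h3 : ∑ A ∈ univ.erase (univ : Finset ι), f A.card =
      ∑ m ∈ range n, (n.choose m : ℝ) * f m := by linarith
  rw [h3, ← Finset.sum_range_reflect]
  refine Finset.sum_congr rfl fun k hk => ?_
  have hk' := Finset.mem_range.1 hk
  have e : n.choose (n - 1 - k) = n.choose (k + 1) := by
    rw [← Nat.choose_symm (show k + 1 ≤ n by omega)]
    congr 1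
    omega
  rw [e]

omit [IsProbabilityMeasure σ] in
lemma pis_inst (σ : Measure X) (ι : Type) (i1 i2 : Fintype ι) :
    @pis X _ σ ι i1 = @pis X _ σ ι i2 := by
  have h : i1 = i2 := Subsingleton.elim _ _
  subst h
  rfl

theorem HH_NBd {D : ℕ → ℝ} (KD : KerD σ g G v ε D) (q : ℕ) (ι : Type)
    [Fintype ι] : NB (pis σ ι) (pim σ q) (HH g)
      (√v ^ (Fintype.card ι + q) * MMd G D q (Fintype.card ι)) := by
  have K := KD.ker
  have hG0 : (0 : ℝ) ≤ G := zero_le_one.trans K.one_le
  have hsv : 0 ≤ √v := Real.sqrt_nonneg v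
  have hvv : √v * √v = v := Real.mul_self_sqrt K.v0.le
  have hMM := fun q p => MMd_nonneg (G := G) K.one_le (KerD_cond KD).nonneg q p
  induction q generalizing ι with
  | zero =>
    by_cases hι : Fintype.card ι = 0
    · refine (NB.one.mono (C' := √v ^ (Fintype.card ι + 0) * MMd G D 0 (Fintype.card ι))
        ?_).congr fun a b => ?_
      · rw [hι]
        simp [MMd]
      · rw [HH_zero, if_pos hι]
    · refine (NB.zero.mono (C' := √v ^ (Fintype.card ι + 0) * MMd G D 0 (Fintype.card ι))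
        ?_).congr fun a b => ?_
      · exact mul_nonneg (pow_nonneg hsv _) (hMM _ _)
      · rw [HH_zero, if_neg hι]
  | succ q ih =>
    classical
    set n := Fintype.card ι with hn
    have bHH : ∀ (κ : Type) [Fintype κ], Bd fun p : (κ → X) × (Fin q → X) => HH g p.1 p.2 :=
      fun κ _ => Bd_HH (Ker_bdg K)
    -- first term
    have bk : Bd fun p : (ι → X) × X => ∏ i, g (p.1 i) p.2 - 1 := by
      have h1 : Bd fun p : (ι → X) × X => ∏ i, g (p.1 i) p.2 :=
        Bd.prod _ fun i _ => (Ker_bdg K).comp (g := fun p : (ι → X) × X => (p.1 i, p.2)) (by fun_prop)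
      have h2 := h1.add (Bd.const (-1))
      simpa only [sub_eq_add_neg] using h2
    have t1 : NB (pis σ ι) (σ.prod (pim σ q))
        (fun a p => (∏ i, g (a i) p.1 - 1) * HH g a p.2)
        ((√v ^ (n + q) * MMd G D q n) * ((n : ℝ) * G ^ n * √v)) :=
      NB.fib σ (bHH ι) (ih ι) (mul_nonneg (pow_nonneg hsv _) (hMM _ _)) bk
        (mul_nonneg (mul_nonneg (Nat.cast_nonneg _) (pow_nonneg hG0 _)) hsv)
        (fun y => prod_sub_sq K y)
    -- the other terms
    have t2 : ∀ A ∈ univ.erase (univ : Finset ι), NB (pis σ ι) (σ.prod (pim σ q))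
        (fun a p => (∏ i : {i // i ∈ A}, g (a i) p.1) *
          (HH g (fun i : {i // i ∈ A} => a i) p.2 * ∏ i : {i // i ∉ A}, (g (a i) p.1 - 1)))
        (√v ^ (n + (q + 1)) * (G ^ n * D (n - A.card) * MMd G D q A.card)) := by
      intro A hA
      have hAne : A ≠ univ := (Finset.mem_erase.1 hA).1
      have hAlt : A.card < n := by
        rw [hn, ← Finset.card_univ]
        exact Finset.card_lt_card ((Finset.ssubset_univ_iff).2 hAne)
      have hcA : Fintype.card {i // i ∈ A} = A.card := Fintype.card_coe A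
      have hcB : Fintype.card {i // i ∉ A} = (n - 1 - A.card) + 1 := by
        rw [Fintype.card_subtype_compl, ← hn, hcA]
        omega
      have hH := ih {i // i ∈ A}
      rw [hcA] at hH
      have hS := star_NBd KD ((n - 1 - A.card) + 1) (by omega) {i // i ∉ A} hcB
      have bS : Bd fun p : ({i // i ∉ A} → X) × X => ∏ i, (g (p.1 i) p.2 - 1) := by
        refine Bd.prod _ fun i _ => ?_
        have h2 := ((Ker_bdg K).comp (g := fun p : ({i // i ∉ A} → X) × X => (p.1 i, p.2))
          (by fun_prop)).add (Bd.const (-1))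
        simpa only [sub_eq_add_neg] using h2
      have bm : Bd fun p : ({i // i ∈ A} → X) × X => ∏ i, g (p.1 i) p.2 :=
        Bd.prod _ fun i _ => (Ker_bdg K).comp (g := fun p : ({i // i ∈ A} → X) × X => (p.1 i, p.2))
          (by fun_prop)
      have hm : ∀ (a : {i // i ∈ A} → X) (b : X), |∏ i, g (a i) b| ≤ G ^ n := by
        intro a b
        refine (Ker_abs_prod_le K univ a b).trans ?_
        refine pow_le_pow_right₀ K.one_le ?_
        rw [Finset.card_univ, hcA]
        exact hAlt.le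
      have hT := NB.tensor (pis σ {i // i ∈ A}) (pis σ {i // i ∉ A}) σ (pim σ q) hH hS
        (mul_nonneg (pow_nonneg hsv _) (hMM _ _)) (mul_nonneg (pow_nonneg hsv _) ((KerD_cond KD).nonneg _))
        (bHH {i // i ∈ A}) bS bm (pow_nonneg hG0 n) hm
      have hE : MeasurePreserving
          (MeasurableEquiv.piEquivPiSubtypeProd (fun _ : ι => X) (fun i => i ∈ A)) (pis σ ι)
          ((pis σ {i // i ∈ A}).prod (pis σ {i // i ∉ A})) := by
        have hE0 := measurePreserving_piEquivPiSubtypeProd (fun _ : ι => σ) (fun i => i ∈ A)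
        rw [pis_inst σ {i // i ∈ A} _ (Subtype.fintype fun i => i ∈ A),
          pis_inst σ {i // i ∉ A} _ (Subtype.fintype fun i => i ∉ A)]
        exact hE0
      have hT2 := NB.equiv (MeasurableEquiv.piEquivPiSubtypeProd (fun _ : ι => X) (fun i => i ∈ A))
        hE (MeasurableEquiv.refl _) (MeasurePreserving.id _) hT
      refine (hT2.mono ?_).congr fun a p => ?_
      · refine le_of_eq ?_
        rw [show n - 1 - A.card + 1 = n - A.card by omega,
          show n + (q + 1) = (A.card + q) + (n - A.card + 1) by omega, pow_add]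
        ring
      · rfl
    -- the sum
    have b1 : Bd fun p : (ι → X) × (X × (Fin q → X)) =>
        (∏ i, g (p.1 i) p.2.1 - 1) * HH g p.1 p.2.2 :=
      (bk.comp (g := fun p : (ι → X) × (X × (Fin q → X)) => (p.1, p.2.1)) (by fun_prop)).mul
        ((bHH ι).comp (g := fun p : (ι → X) × (X × (Fin q → X)) => (p.1, p.2.2)) (by fun_prop))
    have b2 : ∀ A ∈ univ.erase (univ : Finset ι), Bd fun p : (ι → X) × (X × (Fin q → X)) =>
        (∏ i : {i // i ∈ A}, g (p.1 i) p.2.1) *
          (HH g (fun i : {i // i ∈ A} => p.1 i) p.2.2 *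
            ∏ i : {i // i ∉ A}, (g (p.1 i) p.2.1 - 1)) := by
      intro A _
      have h1 : Bd fun p : (ι → X) × (X × (Fin q → X)) => ∏ i : {i // i ∈ A}, g (p.1 i) p.2.1 :=
        Bd.prod _ fun i _ => (Ker_bdg K).comp
          (g := fun p : (ι → X) × (X × (Fin q → X)) => (p.1 i, p.2.1)) (by fun_prop)
      have h2 : Bd fun p : (ι → X) × (X × (Fin q → X)) =>
          HH g (fun i : {i // i ∈ A} => p.1 i) p.2.2 :=
        (bHH {i // i ∈ A}).comp (g := fun p : (ι → X) × (X × (Fin q → X)) =>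
          ((fun i : {i // i ∈ A} => p.1 i), p.2.2)) (by fun_prop)
      have h3 : Bd fun p : (ι → X) × (X × (Fin q → X)) =>
          ∏ i : {i // i ∉ A}, (g (p.1 i) p.2.1 - 1) := by
        refine Bd.prod _ fun i _ => ?_
        have h4 := ((Ker_bdg K).comp (g := fun p : (ι → X) × (X × (Fin q → X)) => (p.1 i, p.2.1))
          (by fun_prop)).add (Bd.const (-1))
        simpa only [sub_eq_add_neg] using h4
      exact h1.mul (h2.mul h3)
    have t3 := NB.add b1 (Bd.sum _ b2) t1 (NB.sum _ b2 t2)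
    have hE := measurePreserving_piFinSuccAbove (fun _ : Fin (q + 1) => σ) 0
    have t4 := NB.equiv (MeasurableEquiv.refl _) (MeasurePreserving.id _)
      (MeasurableEquiv.piFinSuccAbove (fun _ : Fin (q + 1) => X) 0) hE t3
    refine (t4.mono (le_of_eq ?_)).congr fun a b => ?_
    · rw [← Finset.mul_sum, sum_erase_card n hn.symm (fun m => G ^ n * D (n - m) * MMd G D q m)]
      have e0 : ∑ k ∈ range n, (n.choose (k + 1) : ℝ) *
          (G ^ n * D (n - (n - 1 - k)) * MMd G D q (n - 1 - k)) =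
          ∑ k ∈ range n, (n.choose (k + 1) : ℝ) *
          (G ^ n * D (k + 1) * MMd G D q (n - 1 - k)) := by
        refine Finset.sum_congr rfl fun k hk => ?_
        have hk' := Finset.mem_range.1 hk
        rw [show n - (n - 1 - k) = k + 1 by omega]
      rw [e0]
      change _ = √v ^ (n + (q + 1)) * (∑ k ∈ range n, (n.choose (k + 1) : ℝ) *
        (G ^ n * D (k + 1) * MMd G D q (n - 1 - k)) + n * G ^ n * MMd G D q n)
      rw [show n + (q + 1) = (n + q) + 1 by ring, pow_succ]
      ring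
    · have h := HH_cons g a (b 0) (fun j => b j.succ)
      have hb : (Fin.cons (b 0) (fun j => b j.succ) : Fin (q + 1) → X) = b :=
        Fin.cons_self_tail b
      rw [hb] at h
      rw [h]
      rfl

theorem prod_sub_one_expand {κ : Type} [Fintype κ] [DecidableEq κ] (x : κ → ℝ) :
    ∏ j, (x j - 1) = ∑ B : Finset κ, (-1 : ℝ) ^ (Fintype.card κ - B.card) * ∏ j ∈ B, x j := by
  have h := Finset.prod_add x (fun _ => (-1 : ℝ)) univ
  simp only [← sub_eq_add_neg] at h
  rw [h, Finset.powerset_univ]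
  refine Finset.sum_congr rfl fun B _ => ?_
  rw [Finset.prod_const, mul_comm]
  congr 2
  rw [← Finset.compl_eq_univ_sdiff, Finset.card_compl]

theorem HH_symm (hs : ∀ x y, g x y = g y x) {ι κ : Type} [Fintype ι] [Fintype κ] (a : ι → X)
    (b : κ → X) : HH g a b = HH g b a := by
  classical
  have h : ∀ {ι κ : Type} [Fintype ι] [Fintype κ] [DecidableEq ι] [DecidableEq κ] (a : ι → X)
      (b : κ → X), HH g a b = ∑ A : Finset ι, ∑ B : Finset κ,
        (-1 : ℝ) ^ (Fintype.card ι - A.card) * (-1 : ℝ) ^ (Fintype.card κ - B.card) *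
          ∏ i ∈ A, ∏ j ∈ B, g (a i) (b j) := by
    intro ι κ _ _ _ _ a b
    unfold HH
    refine Finset.sum_congr rfl fun A _ => ?_
    rw [prod_sub_one_expand, Finset.mul_sum]
    refine Finset.sum_congr rfl fun B _ => ?_
    rw [Finset.prod_comm]
    ring
  rw [h a b, h b a, Finset.sum_comm]
  refine Finset.sum_congr rfl fun B _ => Finset.sum_congr rfl fun A _ => ?_
  rw [Finset.prod_comm, mul_comm ((-1 : ℝ) ^ (Fintype.card ι - A.card))]
  congr 1
  refine Finset.prod_congr rfl fun j _ => Finset.prod_congr rfl fun i _ => ?_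
  exact hs _ _

/-- the constants with `m = max p q` -/
noncomputable def EM (G : ℝ) (D : ℕ → ℝ) (m : ℕ) : ℝ :=
  ((m : ℝ) + 1) ^ (2 * m) * G ^ (m ^ 2) * D m

theorem EM_nonneg (hG : 1 ≤ G) {D : ℕ → ℝ} (hD : Dcond D) (m : ℕ) : 0 ≤ EM G D m :=
  mul_nonneg (mul_nonneg (by positivity) (pow_nonneg (zero_le_one.trans hG) _)) (hD.nonneg _)

theorem HH_NBmax {D : ℕ → ℝ} (KD : KerD σ g G v ε D) (p q : ℕ) :
    NB (pim σ p) (pim σ q) (HH g) (√v ^ (p + q) * EM G D (max p q)) := by
  have K := KD.ker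
  have hsv : 0 ≤ √v := Real.sqrt_nonneg v
  rcases le_total q p with h | h
  · have h1 := HH_NBd KD q (Fin p)
    rw [Fintype.card_fin] at h1
    refine h1.mono ?_
    rw [max_eq_left h]
    exact mul_le_mul_of_nonneg_left (MMd_le_diag K.one_le (KerD_cond KD) h) (pow_nonneg hsv _)
  · have h1 := HH_NBd KD p (Fin q)
    rw [Fintype.card_fin] at h1
    have hB : Bd fun r : (Fin q → X) × (Fin p → X) => HH g r.1 r.2 := Bd_HH (Ker_bdg K)
    have h2 := NB.swap hB h1
    refine (h2.congr fun a b => HH_symm K.symm a b).mono ?_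
    rw [max_eq_right h, add_comm q p]
    exact mul_le_mul_of_nonneg_left (MMd_le_diag K.one_le (KerD_cond KD) h) (pow_nonneg hsv _)

end Pool.Agent.Helper50.LP
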