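import Pool.Agent.Helper50.LP.HH
import Pool.Agent.Helper47.LB.Pos2
import Pool.Agent.Helper47.LB.Ident
import Pool.Agent.Helper47.LB.Lin

/-!
Block B2: positivity of the moment form, with separate constants for the stars.
-/

set_option autoImplicit false

open MeasureTheory Finset

namespace Pool.Agent.Helper50.LP

open Pool.Agent.Helper47.KP (Bd pim)
open Pool.Agent.Helper47.LB
open Pool.Agent.Helper85.LP
open Pool.Agent.Helper47.LB.Pos1

variable {X : Type} [MeasurableSpace X] [DecidableEq X] {σ : Measure X} [IsProbabilityMeasure σ]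
  {g : X → X → ℝ} {G v ε : ℝ}

theorem term_leD {D : ℕ → ℝ} (KD : KerD σ g G v ε D) {t : ℕ} {N : ℝ} (hN : 0 < N)
    (hNv : 1 ≤ N * v) {F : Finset X → ℝ} (hF : FB F) {p q : ℕ} (l : ℕ) :
    N ^ l / (l.factorial : ℝ) * (N ^ p / (p.factorial : ℝ)) * (N ^ q / (q.factorial : ℝ)) *
      |∫ z : Fin l → X, sf g z * ∫ a : Fin p → X, ∫ b : Fin q → X,
        Ph σ t N g F z a * Ph σ t N g F z b * HH g a b ∂(pim σ q) ∂(pim σ p) ∂(pim σ l)| ≤
    (N * v) ^ (max p q) * EM G D (max p q) * G ^ (t ^ 2) * 2 ^ t *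
      ((YY σ t N g F (l + p) + YY σ t N g F (l + q)) / 2) := by
  have K := KD.ker
  have hM := EM_nonneg (G := G) K.one_le (KerD_cond KD) (max p q)
  have hs : 0 < √N := Real.sqrt_pos.2 hN
  set c : ℝ := √N ^ p / √N ^ q with hc
  have hc0 : 0 < c := by positivity
  have hPp : Bd fun r : (Fin l → X) × (Fin p → X) => Ph σ t N g F r.1 r.2 :=
    Bd_Ph σ t N K.bd hF
  have hPq : Bd fun r : (Fin l → X) × (Fin q → X) => Ph σ t N g F r.1 r.2 :=
    Bd_Ph σ t N K.bd hF
  have hsf : Bd fun z : Fin l → X => sf g z := Bd_sf K.bd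
  have hA : Bd fun z : Fin l → X => ∫ a : Fin p → X, Ph σ t N g F z a ^ 2 ∂(pim σ p) :=
    (Bd_sq hPp).integral (pim σ p)
  have hB : Bd fun z : Fin l → X => ∫ b : Fin q → X, Ph σ t N g F z b ^ 2 ∂(pim σ q) :=
    (Bd_sq hPq).integral (pim σ q)
  set C : ℝ := √v ^ (p + q) * EM G D (max p q) with hCdef
  have hC : 0 ≤ C := by positivity
  -- the estimate for fixed `z`
  have h1 : ∀ z : Fin l → X, |∫ a : Fin p → X, ∫ b : Fin q → X,
      Ph σ t N g F z a * Ph σ t N g F z b * HH g a b ∂(pim σ q) ∂(pim σ p)| ≤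
      C * ((c * (∫ a : Fin p → X, Ph σ t N g F z a ^ 2 ∂(pim σ p)) +
        c⁻¹ * (∫ b : Fin q → X, Ph σ t N g F z b ^ 2 ∂(pim σ q))) / 2) := by
    intro z
    have h2 := HH_NBmax KD p q (fun a => Ph σ t N g F z a) (fun b => Ph σ t N g F z b)
      (hPp.comp (g := fun a : Fin p → X => (z, a)) measurable_prodMk_left)
      (hPq.comp (g := fun a : Fin q → X => (z, a)) measurable_prodMk_left)
    refine h2.trans (mul_le_mul_of_nonneg_left ?_ hC)
    exact amgm hc0 (integral_nonneg fun _ => sq_nonneg _) (integral_nonneg fun _ => sq_nonneg _)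
  -- the integral over `z`
  have hint : |∫ z : Fin l → X, sf g z * ∫ a : Fin p → X, ∫ b : Fin q → X,
        Ph σ t N g F z a * Ph σ t N g F z b * HH g a b ∂(pim σ q) ∂(pim σ p) ∂(pim σ l)| ≤
      C / 2 * (c * (∫ z : Fin l → X, sf g z *
          (∫ a : Fin p → X, Ph σ t N g F z a ^ 2 ∂(pim σ p)) ∂(pim σ l)) +
        c⁻¹ * (∫ z : Fin l → X, sf g z *
          (∫ b : Fin q → X, Ph σ t N g F z b ^ 2 ∂(pim σ q)) ∂(pim σ l))) := by
    have h3 : ∫ z : Fin l → X, sf g z * (C * ((c * (∫ a : Fin p → X,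
        Ph σ t N g F z a ^ 2 ∂(pim σ p)) + c⁻¹ * (∫ b : Fin q → X,
        Ph σ t N g F z b ^ 2 ∂(pim σ q))) / 2)) ∂(pim σ l) =
      C / 2 * (c * (∫ z : Fin l → X, sf g z *
          (∫ a : Fin p → X, Ph σ t N g F z a ^ 2 ∂(pim σ p)) ∂(pim σ l)) +
        c⁻¹ * (∫ z : Fin l → X, sf g z *
          (∫ b : Fin q → X, Ph σ t N g F z b ^ 2 ∂(pim σ q)) ∂(pim σ l))) := by
      rw [← integral_const_mul c, ← integral_const_mul c⁻¹, ← integral_add
        (((hsf.mul hA).integrable _).const_mul c) (((hsf.mul hB).integrable _).const_mul c⁻¹),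
        ← integral_const_mul]
      congr 1
      funext z
      ring
    rw [← h3]
    have h4 : Bd fun z : Fin l → X => sf g z * (C * ((c * (∫ a : Fin p → X,
        Ph σ t N g F z a ^ 2 ∂(pim σ p)) + c⁻¹ * (∫ b : Fin q → X,
        Ph σ t N g F z b ^ 2 ∂(pim σ q))) / 2)) := by
      have h5 := hsf.mul ((Bd.const C).mul ((((Bd.const c).mul hA).add
        ((Bd.const c⁻¹).mul hB)).mul (Bd.const (2 : ℝ)⁻¹)))
      simpa only [div_eq_mul_inv] using h5
    rw [← Real.norm_eq_abs]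
    refine norm_integral_le_of_norm_le (h4.integrable _) (Filter.Eventually.of_forall fun z => ?_)
    rw [Real.norm_eq_abs, abs_mul, abs_of_nonneg (sf_nonneg g z)]
    exact mul_le_mul_of_nonneg_left (h1 z) (sf_nonneg g z)
  -- the two error terms
  have hAP := AP_le K (t := t) hN hF l p
  have hAQ := AP_le K (t := t) hN hF l q
  have hG0 : (0 : ℝ) ≤ G := zero_le_one.trans K.one_le
  have hP1 := coef_le (σ := σ) (g := g) (t := t) hN (F := F) l p q
  have hQ1 := coef_le (σ := σ) (g := g) (t := t) hN (F := F) l q p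
  have hcinv : √N ^ q / √N ^ p = c⁻¹ := by rw [hc, inv_div]
  rw [hcinv] at hQ1
  rw [← hc] at hP1
  set A : ℝ := ∫ z : Fin l → X, sf g z *
    (∫ a : Fin p → X, Ph σ t N g F z a ^ 2 ∂(pim σ p)) ∂(pim σ l) with hAdef
  set B : ℝ := ∫ z : Fin l → X, sf g z *
    (∫ b : Fin q → X, Ph σ t N g F z b ^ 2 ∂(pim σ q)) ∂(pim σ l) with hBdef
  have hYp := YY_nonneg (σ := σ) (g := g) (t := t) hN (F := F) (l + p)
  have hYq := YY_nonneg (σ := σ) (g := g) (t := t) hN (F := F) (l + q)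
  set Yp := YY σ t N g F (l + p)
  set Yq := YY σ t N g F (l + q)
  set Np : ℝ := N ^ p / (p.factorial : ℝ) with hNp
  set Nq : ℝ := N ^ q / (q.factorial : ℝ) with hNq
  set Nl : ℝ := N ^ l / (l.factorial : ℝ) with hNl
  have hNp0 : 0 < Np := by positivity
  have hNq0 : 0 < Nq := by positivity
  have hNl0 : 0 < Nl := by positivity
  have hstepP : Np * Nq * (c * (Nl * A)) ≤ G ^ (t ^ 2) * (√N ^ (p + q) * 2 ^ t * Yp) := by
    calc Np * Nq * (c * (Nl * A)) ≤ Np * Nq * (c * (G ^ (t ^ 2) *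
          (((l + p).factorial : ℝ) / (l.factorial * N ^ p)) * Yp)) := by gcongr
      _ = G ^ (t ^ 2) * (Np * Nq * c *
          (((l + p).factorial : ℝ) / (l.factorial * N ^ p)) * Yp) := by ring
      _ ≤ _ := mul_le_mul_of_nonneg_left hP1 (by positivity)
  have hstepQ : Np * Nq * (c⁻¹ * (Nl * B)) ≤ G ^ (t ^ 2) * (√N ^ (p + q) * 2 ^ t * Yq) := by
    calc Np * Nq * (c⁻¹ * (Nl * B)) ≤ Np * Nq * (c⁻¹ * (G ^ (t ^ 2) *
          (((l + q).factorial : ℝ) / (l.factorial * N ^ q)) * Yq)) := by gcongr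
      _ = G ^ (t ^ 2) * (Nq * Np * c⁻¹ *
          (((l + q).factorial : ℝ) / (l.factorial * N ^ q)) * Yq) := by ring
      _ ≤ G ^ (t ^ 2) * (√N ^ (q + p) * 2 ^ t * Yq) :=
          mul_le_mul_of_nonneg_left hQ1 (by positivity)
      _ = _ := by rw [add_comm q p]
  have hNvpow : √N ^ (p + q) * √v ^ (p + q) ≤ (N * v) ^ (max p q) := by
    rw [← mul_pow, ← Real.sqrt_mul hN.le]
    have h6 : (1 : ℝ) ≤ √(N * v) := by
      rw [Real.one_le_sqrt]
      exact hNv
    calc √(N * v) ^ (p + q) ≤ √(N * v) ^ (2 * (max p q)) := pow_le_pow_right₀ h6 (by omega)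
      _ = (N * v) ^ (max p q) := by rw [pow_mul, Real.sq_sqrt (by linarith)]
  calc Nl * Np * Nq * |∫ z : Fin l → X, sf g z * ∫ a : Fin p → X, ∫ b : Fin q → X,
        Ph σ t N g F z a * Ph σ t N g F z b * HH g a b ∂(pim σ q) ∂(pim σ p) ∂(pim σ l)|
      ≤ Nl * Np * Nq * (C / 2 * (c * A + c⁻¹ * B)) :=
        mul_le_mul_of_nonneg_left hint (by positivity)
    _ = C / 2 * (Np * Nq * (c * (Nl * A)) + Np * Nq * (c⁻¹ * (Nl * B))) := by ring
    _ ≤ C / 2 * (G ^ (t ^ 2) * (√N ^ (p + q) * 2 ^ t * Yp) +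
          G ^ (t ^ 2) * (√N ^ (p + q) * 2 ^ t * Yq)) :=
        mul_le_mul_of_nonneg_left (add_le_add hstepP hstepQ) (by positivity)
    _ = (√N ^ (p + q) * √v ^ (p + q)) * (EM G D (max p q) * G ^ (t ^ 2) * 2 ^ t *
          ((Yp + Yq) / 2)) := by
        rw [hCdef]
        ring
    _ ≤ (N * v) ^ (max p q) * (EM G D (max p q) * G ^ (t ^ 2) * 2 ^ t * ((Yp + Yq) / 2)) :=
        mul_le_mul_of_nonneg_right hNvpow (by positivity)
    _ = _ := by ring


theorem Form_rank_oneD {D : ℕ → ℝ} (KD : KerD σ g G v ε D) {t : ℕ} {N : ℝ} (hN : 0 < N)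
    (hNv : 1 ≤ N * v)
    (hnum : ∀ m, 1 ≤ m → m ≤ t → ((t : ℝ) + 1) ^ 2 * 2 ^ t * G ^ (2 * t ^ 2) * (N * v) ^ m *
      ((m : ℝ) + 1) ^ (2 * m) * D m ≤ 1)
    {F : Finset X → ℝ} (hF : FB F) : 0 ≤ Form σ t N g (fun S T => F S * F T) := by
  have K := KD.ker
  rw [Form_eq K t N hF]
  have hG0 : 0 ≤ G := by
    have := K.one_le
    linarith
  have hNv0 : 0 ≤ N * v := by linarith
  have ht1 : (0 : ℝ) < ((t : ℝ) + 1) ^ 2 := by positivity
  set κ : ℝ := (((t : ℝ) + 1) ^ 2)⁻¹ with hκ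
  have hκ0 : 0 ≤ κ := by positivity
  have hκm : ∀ m, 1 ≤ m → m ≤ t → (N * v) ^ m * EM G D m * G ^ (t ^ 2) * 2 ^ t ≤ κ := by
    intro m hm1 hmt
    have h1 := hnum m hm1 hmt
    have hGm : G ^ (m ^ 2) ≤ G ^ (t ^ 2) :=
      pow_le_pow_right₀ K.one_le (Nat.pow_le_pow_left hmt 2)
    rw [hκ, ← one_div, le_div_iff₀ ht1]
    refine le_trans ?_ h1
    have e : G ^ (2 * t ^ 2) = G ^ (t ^ 2) * G ^ (t ^ 2) := by rw [← pow_add]; congr 1; ring
    rw [e]
    unfold EM
    have hD := (KerD_cond KD).nonneg m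
    calc (N * v) ^ m * (((m : ℝ) + 1) ^ (2 * m) * G ^ (m ^ 2) * D m) * G ^ (t ^ 2) * 2 ^ t *
          ((t : ℝ) + 1) ^ 2 =
        (((t : ℝ) + 1) ^ 2 * 2 ^ t * G ^ (t ^ 2) * (N * v) ^ m * ((m : ℝ) + 1) ^ (2 * m) * D m) *
          G ^ (m ^ 2) := by ring
      _ ≤ (((t : ℝ) + 1) ^ 2 * 2 ^ t * G ^ (t ^ 2) * (N * v) ^ m * ((m : ℝ) + 1) ^ (2 * m) * D m) *
          G ^ (t ^ 2) := mul_le_mul_of_nonneg_left hGm (by positivity)
      _ = _ := by ring
  have hY : ∀ m, 0 ≤ YY σ t N g F m := fun m => YY_nonneg hN m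
  have hterm : ∀ l, ∀ p ∈ range (t + 1), ∀ q ∈ range (t + 1),
      (if p = 0 ∧ q = 0 then YY σ t N g F l else 0) -
        κ * ((YY σ t N g F (l + p) + YY σ t N g F (l + q)) / 2) ≤
      N ^ l / (l.factorial : ℝ) * (N ^ p / (p.factorial : ℝ)) * (N ^ q / (q.factorial : ℝ)) *
      ∫ z : Fin l → X, sf g z * ∫ a : Fin p → X, ∫ b : Fin q → X,
        Ph σ t N g F z a * Ph σ t N g F z b * HH g a b ∂(pim σ q) ∂(pim σ p) ∂(pim σ l) := by
    intro l p hp q hq
    rw [mem_range] at hp hq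
    have hnn : 0 ≤ κ * ((YY σ t N g F (l + p) + YY σ t N g F (l + q)) / 2) :=
      mul_nonneg hκ0 (by have := hY (l + p); have := hY (l + q); linarith)
    rcases p with _ | p
    · rcases q with _ | q
      · rw [term_zero16 K hF l]
        simp only [and_self, if_true]
        linarith
      · have h0 : ∀ (a : Fin 0 → X) (b : Fin (q + 1) → X), HH g a b = 0 := fun a b =>
          HH_empty g (by simp) a b
        simp only [h0, mul_zero, integral_zero]
        rw [if_neg (by omega)]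
        linarith
    · rcases q with _ | q
      · have h0 : ∀ (a : Fin (p + 1) → X) (b : Fin 0 → X), HH g a b = 0 := by
          intro a b
          rw [HH_zero]
          simp
        simp only [h0, mul_zero, integral_zero]
        rw [if_neg (by omega)]
        linarith
      · rw [if_neg (by omega), zero_sub]
        have h1 := term_leD (t := t) KD hN hNv hF (p := p + 1) (q := q + 1) l
        have hc : 0 ≤ N ^ l / (l.factorial : ℝ) * (N ^ (p + 1) / ((p + 1).factorial : ℝ)) *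
            (N ^ (q + 1) / ((q + 1).factorial : ℝ)) := by positivity
        have h2 := hκm (max (p + 1) (q + 1)) (by omega) (by omega)
        have h3 : (N * v) ^ (max (p + 1) (q + 1)) * EM G D (max (p + 1) (q + 1)) * G ^ (t ^ 2) *
            2 ^ t * ((YY σ t N g F (l + (p + 1)) + YY σ t N g F (l + (q + 1))) / 2) ≤
            κ * ((YY σ t N g F (l + (p + 1)) + YY σ t N g F (l + (q + 1))) / 2) := by
          have h4 : 0 ≤ (YY σ t N g F (l + (p + 1)) + YY σ t N g F (l + (q + 1))) / 2 := by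
            have := hY (l + (p + 1)); have := hY (l + (q + 1)); linarith
          exact mul_le_mul_of_nonneg_right h2 h4
        have h5 := neg_abs_le (∫ z : Fin l → X, sf g z * ∫ a : Fin (p + 1) → X,
          ∫ b : Fin (q + 1) → X, Ph σ t N g F z a * Ph σ t N g F z b * HH g a b
            ∂(pim σ (q + 1)) ∂(pim σ (p + 1)) ∂(pim σ l))
        have h6 := mul_le_mul_of_nonneg_left h5 hc
        linarith
  have hsum := sum_le_sum fun l (_ : l ∈ range (t + 1)) => sum_le_sum fun p hp =>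
    sum_le_sum fun q hq => hterm l p hp q hq
  refine le_trans ?_ hsum
  set S : ℝ := ∑ m ∈ range (t + 1), YY σ t N g F m with hS
  have hS0 : 0 ≤ S := sum_nonneg fun m _ => hY m
  have e1 : ∀ l, ∑ p ∈ range (t + 1), ∑ q ∈ range (t + 1),
      ((if p = 0 ∧ q = 0 then YY σ t N g F l else 0) -
        κ * ((YY σ t N g F (l + p) + YY σ t N g F (l + q)) / 2)) =
      YY σ t N g F l - κ * (((t : ℝ) + 1) * ∑ p ∈ range (t + 1), YY σ t N g F (l + p)) := by
    intro l
    simp only [sum_sub_distrib]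
    congr 1
    · rw [sum_eq_single 0, sum_eq_single 0]
      · simp
      · intro q _ hq
        simp [hq]
      · simp
      · intro p _ hp
        simp [hp]
      · simp
    · simp only [← mul_sum]
      congr 1
      simp only [← sum_div, sum_add_distrib, sum_const, card_range, nsmul_eq_mul]
      rw [← mul_sum]
      push_cast
      ring
  simp only [e1]
  rw [sum_sub_distrib, ← mul_sum, ← mul_sum]
  have h1 : ∑ l ∈ range (t + 1), ∑ p ∈ range (t + 1), YY σ t N g F (l + p) ≤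
      ((t : ℝ) + 1) * S := by
    calc ∑ l ∈ range (t + 1), ∑ p ∈ range (t + 1), YY σ t N g F (l + p) ≤
        ∑ _l ∈ range (t + 1), S := sum_le_sum fun l _ => sum_YY_le16 hN l
      _ = ((t : ℝ) + 1) * S := by
        rw [sum_const, card_range, nsmul_eq_mul]
        push_cast
        ring
  have h2 : κ * (((t : ℝ) + 1) * ∑ l ∈ range (t + 1), ∑ p ∈ range (t + 1),
      YY σ t N g F (l + p)) ≤ κ * (((t : ℝ) + 1) * (((t : ℝ) + 1) * S)) := by
    gcongr
  have h3 : κ * (((t : ℝ) + 1) * (((t : ℝ) + 1) * S)) = S := by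
    rw [hκ]
    field_simp
  change 0 ≤ S - _
  linarith



/-- positivity of the moment functional on the truncated kernels -/
theorem Lam_nonneg {X : Type} [MetricSpace X] [CompactSpace X] [MeasurableSpace X]
    [BorelSpace X] [DecidableEq X] {σ : Measure X} [IsProbabilityMeasure σ] {g : X → X → ℝ}
    {G v ε : ℝ} {D : ℕ → ℝ} (KD : KerD σ g G v ε D) {R : X → X → Prop} {t : ℕ}
    {K : Finset X → Finset X → ℝ}
    (hR : IsClosed {p : X × X | R p.1 p.2}) (hirr : ∀ x, ¬ R x x)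
    (hK : PK R t K) {N : ℝ} (hN : 0 < N) (hNv : 1 ≤ N * v)
    (hnum : ∀ m, 1 ≤ m → m ≤ t → ((t : ℝ) + 1) ^ 2 * 2 ^ t * G ^ (2 * t ^ 2) * (N * v) ^ m *
      ((m : ℝ) + 1) ^ (2 * m) * D m ≤ 1) :
    0 ≤ Lam σ t N g (trunc R t K) := by
  rw [Lam_eq_Form KD.ker t N (trunc_bd hR hirr hK)]
  exact Form_nonneg KD.ker hR hirr hK hN.le fun F hF => Form_rank_oneD KD hN hNv hnum hF

end Pool.Agent.Helper50.LP
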